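import Pool.Agent.Helper81.Smash.Defs

/-!
# Curves in threefolds and blow-ups of points and curves

`Threefolds S`, for rational Chow rings `S` of smooth projective varieties over an algebraically
closed field: the smooth curves in threefolds and the blow-ups of threefolds in points and smooth
curves. `Threefolds.Standard`: their standard properties.
-/

set_option autoImplicit false
set_option linter.unusedVariables false

open CategoryTheory CategoryTheory.Limits Pool.Agent.Helper81.Smash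

namespace Pool.Agent.Helper13.Sq

universe u v w

variable {𝒱 : Type u} [Category.{v} 𝒱] [HasFiniteProducts 𝒱] {S : HomCycles.{u, v, w} 𝒱}

/-- `a` is a divisor class -/
def IsDiv {X : 𝒱} (a : S.A X) : Prop := a ∈ S.gr X 1

/-- `a` has codimension 2 -/
def IsTwo {X : 𝒱} (a : S.A X) : Prop := a ∈ S.gr X 2

/-- the pull-back of `a` -/
def pullB {Y X : 𝒱} (f : Y ⟶ X) (a : S.A X) : S.A Y := S.pull f a

/-- the square of `a` -/
def square {X : 𝒱} (a : S.A X) : S.A X := a * a

/-- the multiple `n a` -/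
def mult {X : 𝒱} (n : ℕ) (a : S.A X) : S.A X := (n : S.A X) * a

/-- The smooth connected curves in threefolds, and the blow-ups of threefolds in points and smooth
connected curves. -/
structure Threefolds (S : HomCycles.{u, v, w} 𝒱) where
  /-- `j` is the inclusion of a smooth connected curve in a threefold -/
  IsCurve : ∀ {C X : 𝒱}, (C ⟶ X) → Prop
  /-- the curves are disjoint -/
  Disj : ∀ {C B X : 𝒱}, (C ⟶ X) → (B ⟶ X) → Prop
  /-- the class of the curve in `CH²(X)` -/
  cls : ∀ {C X : 𝒱}, (C ⟶ X) → S.A X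
  /-- the first Chern class of the normal bundle of the curve `C` in `X`, in `CH¹(C)` -/
  nb : ∀ {C X : 𝒱}, (C ⟶ X) → S.A C
  /-- the degree of divisors on a curve -/
  deg : ∀ {C : 𝒱}, S.A C → ℚ
  /-- the genus of a curve -/
  genus : 𝒱 → ℕ
  /-- the class of a point of a curve -/
  pt : ∀ {C : 𝒱}, (⊤_ 𝒱 ⟶ C) → S.A C
  /-- `f` is the blow-up of a threefold in a point or in a smooth connected curve -/
  IsBlowup : ∀ {Y X : 𝒱}, (Y ⟶ X) → Prop

namespace Threefolds

variable (K : Threefolds S)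

/-- `f : Y ⟶ X` is the blow-up in a point `p` of the curve `j : C ⟶ X`; `E` is the exceptional
divisor and `j'` is the inclusion of the strict transform of `C` (which is isomorphic to `C`). -/
structure PointBlowup {C X Y : 𝒱} (j : C ⟶ X) (p : ⊤_ 𝒱 ⟶ C) (f : Y ⟶ X) (E : S.A Y)
    (j' : C ⟶ Y) : Prop where
  isBlowup : K.IsBlowup f
  isCurve : K.IsCurve j'
  comp : j' ≫ f = j
  isDiv : IsDiv E
  mul_eq : ∀ L : S.A X, IsDiv L → pullB f L * E = 0
  sq_eq : K.cls j' = pullB f (K.cls j) + square E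
  res_eq : pullB j' E = K.pt p
  nb_eq : K.nb j' = K.nb j - mult 2 (K.pt p)

/-- `i'` is the inclusion of the strict transform of the curve `i : B ⟶ X` under the blow-up
`f : Y ⟶ X` with exceptional divisor `E` and a centre disjoint from `B`. -/
structure StrictTransform {B X Y : 𝒱} (i : B ⟶ X) (f : Y ⟶ X) (E : S.A Y) (i' : B ⟶ Y) : Prop where
  isCurve : K.IsCurve i'
  comp : i' ≫ f = i
  cls_eq : K.cls i' = pullB f (K.cls i)
  res_eq : pullB i' E = 0
  nb_eq : K.nb i' = K.nb i

/-- `f : Y ⟶ X` is the blow-up in the curve `j : C ⟶ X`; `E` is the exceptional divisor and `γ` is the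
pull-back along `E ⟶ C` followed by the push-forward along `E ⟶ Y`. -/
structure CurveBlowup {C X Y : 𝒱} (j : C ⟶ X) (f : Y ⟶ X) (E : S.A Y) (γ : S.A C → S.A Y) :
    Prop where
  linear : IsLinearMap ℚ γ
  isBlowup : K.IsBlowup f
  isDiv : IsDiv E
  mul_eq : ∀ L : S.A X, IsDiv L → pullB f L * E = γ (pullB j L)
  sq_eq : square E = γ (K.nb j) - pullB f (K.cls j)
  strict : ∀ {B : 𝒱} (i : B ⟶ X), K.IsCurve i → K.Disj i j → ∃ i' : B ⟶ Y, K.StrictTransform i f E i'

/-- Every class in `CH¹(C) ⊗ ℚ` of integral degree `s ≥ g` on a curve of genus `g` is the class of a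
sum of `s` points (Riemann-Roch and the divisibility of the Jacobian). -/
def Effective : Prop :=
  ∀ {C X : 𝒱} (j : C ⟶ X), K.IsCurve j → ∀ δ : S.A C, IsDiv δ → ∀ s : ℕ, K.deg δ = s →
    K.genus C ≤ s → ∃ p : Fin s → (⊤_ 𝒱 ⟶ C), δ = ∑ k, K.pt (p k)

/-- For all `a, b ≥ 1` and every curve `C` there is a smooth connected complete intersection curve
`B` of two divisors of classes `a H` and `b H`, disjoint from `C`. -/
def CompleteIntersections {X : 𝒱} (H : S.A X) : Prop :=
  ∀ {C : 𝒱} (j : C ⟶ X), K.IsCurve j → ∀ a b : ℕ, 0 < a → 0 < b → ∃ (B : 𝒱) (i : B ⟶ X),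
    K.IsCurve i ∧ K.Disj j i ∧ K.cls i = mult (a * b) (square H) ∧ K.nb i = mult (a + b) (pullB i H)

/-- For all `z ∈ CH²(X) ⊗ ℚ` there are `n, k ≥ 1` such that for all `m` and all large `l` the class
`m n z + l k H²` is the class of a smooth connected curve. (Here `n z` is the class of a combination
`Z` of disjoint smooth curves, contained in a smooth surface `F` of class `k H`, and the curve is
linearly equivalent to `m Z + l H` on `F`.) -/
def ManyCurves {X : 𝒱} (H : S.A X) : Prop :=
  ∀ z : S.A X, IsTwo z → ∃ n k : ℕ, 0 < n ∧ 0 < k ∧ ∀ m : ℕ, ∃ l₀ : ℕ, ∀ l ≥ l₀,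
    ∃ (C : 𝒱) (j : C ⟶ X), K.IsCurve j ∧ K.cls j = mult (m * n) z + mult (l * k) (square H)

/-- `H` is (the class of) a very ample divisor on the threefold `X`. -/
structure VeryAmple {X : 𝒱} (H : S.A X) : Prop where
  isDiv : IsDiv H
  deg_pos : ∀ {C : 𝒱} (j : C ⟶ X), K.IsCurve j → 0 < K.deg (pullB j H)
  completeIntersections : K.CompleteIntersections H
  manyCurves : K.ManyCurves H

/-- All blow-ups of threefolds in points of curves exist. -/
def HasPointBlowups : Prop :=
  ∀ {C X : 𝒱} (j : C ⟶ X), K.IsCurve j → ∀ p : ⊤_ 𝒱 ⟶ C,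
    ∃ (Y : 𝒱) (f : Y ⟶ X) (E : S.A Y) (j' : C ⟶ Y), K.PointBlowup j p f E j'

/-- All blow-ups of threefolds in smooth connected curves exist. -/
def HasCurveBlowups : Prop :=
  ∀ {C X : 𝒱} (j : C ⟶ X), K.IsCurve j →
    ∃ (Y : 𝒱) (f : Y ⟶ X) (E : S.A Y) (γ : S.A C → S.A Y), K.CurveBlowup j f E γ

/-- The pull-back of cycles along the power `Y ^ m ⟶ X ^ m` of a blow-up, a birational morphism, is
injective. -/
def InjectiveOnPowers : Prop :=
  ∀ {Y X : 𝒱} (f : Y ⟶ X), K.IsBlowup f → ∀ (m : ℕ) (a : S.A (power X m)),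
    pullB (powerMap f m) a = 0 → a = 0

/-- The pull-back of cohomology classes along a blow-up is injective. -/
def InjectiveOnCohomology : Prop :=
  ∀ {Y X : 𝒱} (f : Y ⟶ X), K.IsBlowup f → ∀ a : S.A X, pullB f a ∈ S.hom Y → a ∈ S.hom X

/-- The standard properties of curves in threefolds and blow-ups, over an algebraically closed
field. -/
structure Standard : Prop where
  pull_div : ∀ {Y X : 𝒱} (f : Y ⟶ X) (a : S.A X), IsDiv a → IsDiv (pullB f a)
  nb_div : ∀ {C X : 𝒱} (j : C ⟶ X), K.IsCurve j → IsDiv (K.nb j)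
  deg_linear : ∀ {C : 𝒱}, IsLinearMap ℚ fun a : S.A C => K.deg a
  dim_blowup : ∀ {Y X : 𝒱} (f : Y ⟶ X), K.IsBlowup f → S.dim Y = S.dim X
  pointBlowups : K.HasPointBlowups
  curveBlowups : K.HasCurveBlowups
  effective : K.Effective
  /-- threefolds are projective -/
  veryAmple : ∀ X : 𝒱, S.dim X = 3 → ∃ H : S.A X, K.VeryAmple H
  injective : K.InjectiveOnPowers
  hom_injective : K.InjectiveOnCohomology

/-- Compositions of blow-ups of threefolds in points and smooth connected curves. -/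
inductive IteratedBlowup : ∀ {Y X : 𝒱}, (Y ⟶ X) → Prop
  | id (X : 𝒱) : IteratedBlowup (𝟙 X)
  | comp {W Y X : 𝒱} (g : W ⟶ Y) (f : Y ⟶ X) : K.IsBlowup g → IteratedBlowup f →
      IteratedBlowup (g ≫ f)

end Threefolds

/-- Voevodsky's conjecture for the 1-cycles on threefolds -/
def VoevodskyThreefolds (S : HomCycles.{u, v, w} 𝒱) : Prop :=
  ∀ (X : 𝒱) (z : S.A X), S.dim X = 3 → IsTwo z → z ∈ S.hom X → S.SmashNilpotent z

/-- ... for the squares of divisors on threefolds -/
def VoevodskySquares (S : HomCycles.{u, v, w} 𝒱) : Prop :=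
  ∀ (X : 𝒱) (D : S.A X), S.dim X = 3 → IsDiv D → square D ∈ S.hom X → S.SmashNilpotent (square D)

end Pool.Agent.Helper13.Sq
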