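import Pool.Agent.Helper13.Sq.Defs

/-!
# Every 1-cycle on a threefold becomes the square of a divisor after blow-ups
-/

set_option autoImplicit false
set_option linter.unusedVariables false

open CategoryTheory CategoryTheory.Limits Pool.Agent.Helper81.Smash

namespace Pool.Agent.Helper13.Sq

universe u v w

variable {𝒱 : Type u} [Category.{v} 𝒱] [HasFiniteProducts 𝒱] {S : HomCycles.{u, v, w} 𝒱}
  (K : Threefolds S) (T : K.Standard)

include T in
theorem point {C X : 𝒱} (j : C ⟶ X) (hj : K.IsCurve j) (p : ⊤_ 𝒱 ⟶ C) :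
    ∃ (Y : 𝒱) (f : Y ⟶ X) (E : S.A Y) (j' : C ⟶ Y), K.IsBlowup f ∧ K.IsCurve j' ∧ j' ≫ f = j ∧
      E ∈ S.gr Y 1 ∧ (∀ L ∈ S.gr X 1, S.pull f L * E = 0) ∧
      K.cls j' = S.pull f (K.cls j) + E * E ∧ S.pull j' E = K.pt p ∧
      K.nb j' = K.nb j - 2 * K.pt p := by
  obtain ⟨Y, f, E, j', h⟩ := T.pointBlowups j hj p
  refine ⟨Y, f, E, j', h.isBlowup, h.isCurve, h.comp, h.isDiv, h.mul_eq, h.sq_eq, h.res_eq, ?_⟩
  have := h.nb_eq
  unfold mult at this
  exact_mod_cast this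

include T in
theorem curve {C X : 𝒱} (j : C ⟶ X) (hj : K.IsCurve j) :
    ∃ (Y : 𝒱) (f : Y ⟶ X) (E : S.A Y) (γ : S.A C →ₗ[ℚ] S.A Y), K.IsBlowup f ∧ E ∈ S.gr Y 1 ∧
      (∀ L ∈ S.gr X 1, S.pull f L * E = γ (S.pull j L)) ∧
      E * E = γ (K.nb j) - S.pull f (K.cls j) ∧
      ∀ {B : 𝒱} (i : B ⟶ X), K.IsCurve i → K.Disj i j → ∃ i' : B ⟶ Y, K.IsCurve i' ∧
        i' ≫ f = i ∧ K.cls i' = S.pull f (K.cls i) ∧ S.pull i' E = 0 ∧ K.nb i' = K.nb i := by
  obtain ⟨Y, f, E, γ, h⟩ := T.curveBlowups j hj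
  refine ⟨Y, f, E, h.linear.mk' γ, h.isBlowup, h.isDiv, h.mul_eq, h.sq_eq, fun i hi hij => ?_⟩
  obtain ⟨i', h'⟩ := h.strict i hi hij
  exact ⟨i', h'.isCurve, h'.comp, h'.cls_eq, h'.res_eq, h'.nb_eq⟩

theorem iterated_trans {W Y X : 𝒱} {g : W ⟶ Y} {f : Y ⟶ X}
    (hg : K.IteratedBlowup g) (hf : K.IteratedBlowup f) :
    K.IteratedBlowup (g ≫ f) := by
  induction hg with
  | id Y => rw [Category.id_comp]; exact hf
  | comp g' h hg' hh ih =>
    rw [Category.assoc]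
    exact Threefolds.IteratedBlowup.comp g' (h ≫ f) hg' (ih hf)

theorem iterated_one {Y X : 𝒱} {f : Y ⟶ X} (hf : K.IsBlowup f) :
    K.IteratedBlowup f := by
  have := Threefolds.IteratedBlowup.comp f (𝟙 X) hf (Threefolds.IteratedBlowup.id X)
  rwa [Category.comp_id] at this

include T in
theorem iterated_dim {Y X : 𝒱} {f : Y ⟶ X} (hf : K.IteratedBlowup f) :
    S.dim Y = S.dim X := by
  induction hf with
  | id X => rfl
  | comp g f hg hf ih => rw [T.dim_blowup g hg, ih]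

include T in
/-- The blow-up of points on a curve (each point is a point of the strict transform). -/
theorem points {C X : 𝒱} (j : C ⟶ X) (hj : K.IsCurve j) (L : S.A X) (hL : L ∈ S.gr X 1) (x : ℚ)
    (l : List (⊤_ 𝒱 ⟶ C)) :
    ∃ (Y : 𝒱) (f : Y ⟶ X) (j' : C ⟶ Y) (L' : S.A Y), K.IteratedBlowup f ∧
      K.IsCurve j' ∧ L' ∈ S.gr Y 1 ∧
      L' * L' = S.pull f (L * L) + x ^ 2 • (K.cls j' - S.pull f (K.cls j)) ∧
      S.pull j' L' = S.pull j L - x • (l.map K.pt).sum ∧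
      K.nb j' = K.nb j - (2 : ℚ) • (l.map K.pt).sum := by
  induction l with
  | nil =>
    refine ⟨X, 𝟙 X, j, L, Threefolds.IteratedBlowup.id X, hj, hL, ?_, ?_, ?_⟩
    · simp [S.pull_id]
    · simp
    · simp
  | cons q l ih =>
    obtain ⟨Y, f, j', L', hf, hj', hL', h1, h2, h3⟩ := ih
    obtain ⟨W, g, E, j'', hg, hj'', hcomp, hE1, hE, hcls, hres, hnb⟩ := point K T j' hj' q
    refine ⟨W, g ≫ f, j'', S.pull g L' - x • E, Threefolds.IteratedBlowup.comp g f hg hf, hj'',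
      (S.gr W 1).sub_mem (T.pull_div g _ hL') ((S.gr W 1).smul_mem x hE1), ?_, ?_, ?_⟩
    · have hEE : E * E = K.cls j'' - S.pull g (K.cls j') := by rw [hcls]; ring
      have h0 := hE L' hL'
      have h0' : E * S.pull g L' = 0 := by rw [mul_comm]; exact h0
      have : (S.pull g L' - x • E) * (S.pull g L' - x • E)
          = S.pull g (L' * L') + x ^ 2 • (E * E) := by
        simp only [sub_mul, mul_sub, smul_mul_assoc, mul_smul_comm, h0, h0', map_mul]
        module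
      rw [this, h1, hEE]
      simp only [S.pull_comp, map_add, map_smul, map_sub]
      module
    · have : S.pull j'' (S.pull g L') = S.pull j' L' := by rw [← S.pull_comp, hcomp]
      rw [map_sub, map_smul, this, h2, hres, List.map_cons, List.sum_cons]
      module
    · rw [hnb, h3, List.map_cons, List.sum_cons]
      have : (2 : S.A C) * K.pt q = (2 : ℚ) • K.pt q := by
        rw [Algebra.smul_def, map_ofNat]
      rw [this]
      module

include T in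
/-- For a smooth curve `C`, a divisor `L` and numbers `t > 0`, `s ≥ g` with
`deg (N_C + t L) = 4 s`: the class `L² - (4/t²) C` is a square on an iterated blow-up. -/
theorem square_sub {C X : 𝒱} (j : C ⟶ X) (hj : K.IsCurve j) (L : S.A X) (hL : L ∈ S.gr X 1) (t : ℚ)
    (s : ℕ) (ht : 0 < t) (hs : K.genus C ≤ s) (hdeg : K.deg (K.nb j + t • S.pull j L) = 4 * s) :
    ∃ (Y : 𝒱) (f : Y ⟶ X) (D : S.A Y), K.IteratedBlowup f ∧ D ∈ S.gr Y 1 ∧
      D * D = S.pull f (L * L - (4 / t ^ 2) • K.cls j) := by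
  have hmem : K.nb j + t • S.pull j L ∈ S.gr C 1 :=
    (S.gr C 1).add_mem (T.nb_div j hj) ((S.gr C 1).smul_mem t (T.pull_div j _ hL))
  obtain ⟨p, hp⟩ := T.effective j hj ((1 / 4 : ℚ) • (K.nb j + t • S.pull j L))
    ((S.gr C 1).smul_mem _ hmem) s (by rw [T.deg_linear.map_smul, hdeg, smul_eq_mul]; ring) hs
  obtain ⟨Y, f, j', L', hf, hj', hL', h1, h2, h3⟩ := points K T j hj L hL (2 / t) (List.ofFn p)
  obtain ⟨W, g, E, γ, hg, hE1, hE, hEE, -⟩ := curve K T j' hj'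
  have hsum : ((List.ofFn p).map K.pt).sum = (1 / 4 : ℚ) • (K.nb j + t • S.pull j L) := by
    rw [hp, List.map_ofFn, List.sum_ofFn]
    rfl
  refine ⟨W, g ≫ f, S.pull g L' + (2 / t) • E, Threefolds.IteratedBlowup.comp g f hg hf,
    (S.gr W 1).add_mem (T.pull_div g _ hL') ((S.gr W 1).smul_mem _ hE1), ?_⟩
  have hE0 := hE L' hL'
  have hE' : E * S.pull g L' = γ (S.pull j' L') := by rw [mul_comm]; exact hE0
  have h4 : (S.pull g L' + (2 / t) • E) * (S.pull g L' + (2 / t) • E)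
      = S.pull g (L' * L') + (2 * (2 / t)) • γ (S.pull j' L')
        + (2 / t) ^ 2 • (γ (K.nb j') - S.pull g (K.cls j')) := by
    simp only [add_mul, mul_add, smul_mul_assoc, mul_smul_comm, hE0, hE', hEE, map_mul]
    module
  have h5 : (2 * (2 / t)) • γ (S.pull j' L') + (2 / t) ^ 2 • γ (K.nb j') = 0 := by
    have key : ∀ (a b : ℚ) (x y : S.A C), a • γ x + b • γ y = γ (a • x + b • y) := by
      intro a b x y
      simp only [map_add, map_smul]
    rw [h2, h3, hsum, key]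
    have : (2 * (2 / t)) • (S.pull j L - (2 / t) • (1 / 4 : ℚ) • (K.nb j + t • S.pull j L))
        + (2 / t) ^ 2 • (K.nb j - (2 : ℚ) • (1 / 4 : ℚ) • (K.nb j + t • S.pull j L)) = 0 := by
      have e1 : (2 * (2 / t)) • (S.pull j L - (2 / t) • (1 / 4 : ℚ) • (K.nb j + t • S.pull j L))
          + (2 / t) ^ 2 • (K.nb j - (2 : ℚ) • (1 / 4 : ℚ) • (K.nb j + t • S.pull j L))
          = (4 / t - (2 / t) ^ 2 * t) • S.pull j L := by module
      have e2 : 4 / t - (2 / t) ^ 2 * t = 0 := by field_simp; ring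
      rw [e1, e2, zero_smul]
    rw [this, map_zero]
  rw [h4]
  have h6 : S.pull g (L' * L') + (2 * (2 / t)) • γ (S.pull j' L')
        + (2 / t) ^ 2 • (γ (K.nb j') - S.pull g (K.cls j'))
      = S.pull g (L' * L') - (2 / t) ^ 2 • S.pull g (K.cls j')
        + ((2 * (2 / t)) • γ (S.pull j' L') + (2 / t) ^ 2 • γ (K.nb j')) := by module
  rw [h6, h5, add_zero, h1]
  simp only [S.pull_comp, map_add, map_smul, map_sub]
  have : (2 / t) ^ 2 = 4 / t ^ 2 := by ring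
  rw [this]
  module

include T in
/-- **Theorem.** Every 1-cycle `z` on a threefold `X` becomes the square of a divisor on an iterated
blow-up of `X`. -/
theorem exists_square (X : 𝒱) (hX : S.dim X = 3) (z : S.A X) (hz : z ∈ S.gr X 2) :
    ∃ (Y : 𝒱) (f : Y ⟶ X) (D : S.A Y), K.IteratedBlowup f ∧ D ∈ S.gr Y 1 ∧
      D * D = S.pull f z := by
  obtain ⟨H, hH, hpos, hci, hgen⟩ := T.veryAmple X hX
  have hci : ∀ {C : 𝒱} (j : C ⟶ X), K.IsCurve j → ∀ a b : ℕ, 0 < a → 0 < b →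
      ∃ (B : 𝒱) (i : B ⟶ X), K.IsCurve i ∧ K.Disj j i ∧
        K.cls i = ((a * b : ℕ) : S.A X) * (H * H) ∧ K.nb i = ((a + b : ℕ) : S.A B) * S.pull i H := hci
  have hgen : ∀ z ∈ S.gr X 2, ∃ n k : ℕ, 0 < n ∧ 0 < k ∧ ∀ m : ℕ, ∃ l₀ : ℕ, ∀ l ≥ l₀,
      ∃ (C : 𝒱) (j : C ⟶ X), K.IsCurve j ∧
        K.cls j = ((m * n : ℕ) : S.A X) * z + ((l * k : ℕ) : S.A X) * (H * H) := hgen
  obtain ⟨n, k, hn, hk, hgen⟩ := hgen (-z) ((S.gr X 2).neg_mem hz)
  obtain ⟨l₀, hl₀⟩ := hgen n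
  -- the curve `C` with class `- n² z + (k r)² H²`
  set r : ℕ := l₀ + 1 with hr
  obtain ⟨C, j, hj, hC⟩ := hl₀ (k * r ^ 2) (by nlinarith [hk, Nat.zero_le l₀])
  have hkr : 0 < k * r := Nat.mul_pos hk (by omega)
  have hh : 0 < K.deg (S.pull j H) := hpos j hj
  set h : ℚ := K.deg (S.pull j H) with hh'
  set d : ℚ := K.deg (K.nb j) with hd
  -- the numbers `s`, `t`
  obtain ⟨s₀, hs₀⟩ := exists_nat_gt ((2 * (k * r : ℕ) * h + d) / 4)
  set s : ℕ := s₀ + K.genus C with hs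
  set t : ℚ := (4 * s - d) / h with ht
  have hs1 : (2 * (k * r : ℕ) * h + d) / 4 < s := by
    have : (s : ℚ) = s₀ + K.genus C := by rw [hs]; push_cast; ring
    rw [this]
    have : (0 : ℚ) ≤ K.genus C := Nat.cast_nonneg _
    linarith
  have ht1 : 2 * (k * r : ℕ) < t := by
    rw [ht, lt_div_iff₀ hh]
    linarith
  have hkr' : (0 : ℚ) < (k * r : ℕ) := by exact_mod_cast hkr
  have ht0 : 0 < t := by linarith
  -- `σ = 2 k r / t = u / v`
  set σ : ℚ := 2 * (k * r : ℕ) / t with hσ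
  have hσ0 : 0 < σ := by positivity
  have hσ1 : σ < 1 := by rw [hσ, div_lt_one ht0]; exact ht1
  set u : ℕ := σ.num.toNat with hu
  set v : ℕ := σ.den with hv
  have hv0 : 0 < v := σ.den_pos
  have hnum : (σ.num : ℤ) = (u : ℤ) := by
    rw [hu, Int.toNat_of_nonneg (Rat.num_pos.mpr hσ0).le]
  have huv : σ = u / v := by
    have h1 : (σ.num : ℚ) = (u : ℚ) := by exact_mod_cast congrArg (Int.cast : ℤ → ℚ) hnum
    rw [← h1]
    exact (Rat.num_div_den σ).symm
  have hlt : u < v := by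
    have : (u : ℚ) < v := by
      rw [huv, div_lt_one (by exact_mod_cast hv0)] at hσ1
      exact hσ1
    exact_mod_cast this
  have cast : ∀ (R : Type w) [CommRing R] [Algebra ℚ R] (q : ℕ) (x : R), (q : R) * x = (q : ℚ) • x := by
    intro R _ _ q x
    rw [Algebra.smul_def, map_natCast]
  -- the complete intersection curve `B`
  obtain ⟨B, i, hi, hdisj, hBc, hBn⟩ := hci j hj (v - u) (v + u) (by omega) (by omega)
  obtain ⟨X₁, f₁, E, γ, hb, hE1, hE, hEE, hstr⟩ := curve K T i hi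
  obtain ⟨j₁, hj₁, hcomp, hC1, hresE, hnb⟩ := hstr j hj hdisj
  have hv' : (v : ℚ) ≠ 0 := by exact_mod_cast hv0.ne'
  set L : S.A X₁ := S.pull f₁ H - (1 / v : ℚ) • E with hL
  have hL1 : L ∈ S.gr X₁ 1 :=
    (S.gr X₁ 1).sub_mem (T.pull_div f₁ _ hH) ((S.gr X₁ 1).smul_mem _ hE1)
  have hLL : L * L = (σ ^ 2) • S.pull f₁ (H * H) := by
    have hE0 := hE H hH
    have hE' : E * S.pull f₁ H = γ (S.pull i H) := by rw [mul_comm]; exact hE0
    have e1 : L * L = S.pull f₁ (H * H) - (2 / v : ℚ) • γ (S.pull i H)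
        + (1 / v : ℚ) ^ 2 • (γ (K.nb i) - S.pull f₁ (K.cls i)) := by
      simp only [hL, sub_mul, mul_sub, smul_mul_assoc, mul_smul_comm, hE0, hE', hEE, map_mul]
      module
    have hab : (((v - u) + (v + u) : ℕ) : ℚ) = 2 * v := by
      have : (v - u) + (v + u) = 2 * v := by omega
      rw [this]; push_cast; ring
    have hab2 : (((v - u) * (v + u) : ℕ) : ℚ) = v ^ 2 - u ^ 2 := by
      rw [Nat.cast_mul, Nat.cast_sub hlt.le]; push_cast; ring
    rw [e1, hBc, hBn, cast, cast, hab, hab2, map_smul, map_smul, huv]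
    have e2 : S.pull f₁ (H * H) - (2 / v : ℚ) • γ (S.pull i H)
        + (1 / v : ℚ) ^ 2 • ((2 * v : ℚ) • γ (S.pull i H)
          - ((v : ℚ) ^ 2 - (u : ℚ) ^ 2) • S.pull f₁ (H * H))
        = (1 - (1 / v : ℚ) ^ 2 * ((v : ℚ) ^ 2 - (u : ℚ) ^ 2)) • S.pull f₁ (H * H)
          + ((1 / v : ℚ) ^ 2 * (2 * v) - 2 / v) • γ (S.pull i H) := by module
    rw [e2]
    have e3 : (1 / v : ℚ) ^ 2 * (2 * v) - 2 / v = 0 := by field_simp; ring
    have e4 : (1 - (1 / v : ℚ) ^ 2 * ((v : ℚ) ^ 2 - (u : ℚ) ^ 2)) = ((u : ℚ) / v) ^ 2 := by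
      field_simp; ring
    rw [e3, e4, zero_smul, add_zero]
  -- the curve `C`
  have hresL : S.pull j₁ L = S.pull j H := by
    rw [hL, map_sub, map_smul, hresE, smul_zero, sub_zero, ← S.pull_comp, hcomp]
  obtain ⟨Y, f, D, hf, hD1, hD⟩ := square_sub K T j₁ hj₁ L hL1 t s ht0 (by rw [hs]; omega) (by
    rw [hnb, hresL, T.deg_linear.map_add, T.deg_linear.map_smul, smul_eq_mul, ← hd, ← hh', ht]
    field_simp
    ring)
  have hn' : (n : ℚ) ≠ 0 := by exact_mod_cast hn.ne'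
  have hcls : S.pull f₁ (K.cls j) = - ((n : ℚ) ^ 2) • S.pull f₁ z
      + ((k * r : ℕ) : ℚ) ^ 2 • S.pull f₁ (H * H) := by
    rw [hC, cast, cast, map_add, map_smul, map_smul, map_neg]
    push_cast
    module
  refine ⟨Y, f ≫ f₁, (t / (2 * n)) • D, iterated_trans K hf (iterated_one K hb),
    (S.gr Y 1).smul_mem _ hD1, ?_⟩
  have hDD : ∀ c : ℚ, (c • D) * (c • D) = (c * c) • (D * D) := by
    intro c
    rw [smul_mul_assoc, mul_smul_comm, smul_smul]
  rw [hDD, hD, hLL, hC1, hcls]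
  have e1 : σ ^ 2 • S.pull f₁ (H * H) - (4 / t ^ 2) • (- ((n : ℚ) ^ 2) • S.pull f₁ z
      + ((k * r : ℕ) : ℚ) ^ 2 • S.pull f₁ (H * H))
      = (4 * n ^ 2 / t ^ 2) • S.pull f₁ z
        + (σ ^ 2 - 4 / t ^ 2 * ((k * r : ℕ) : ℚ) ^ 2) • S.pull f₁ (H * H) := by module
  have e2 : σ ^ 2 - 4 / t ^ 2 * ((k * r : ℕ) : ℚ) ^ 2 = 0 := by rw [hσ]; ring_nf
  rw [e1, e2, zero_smul, add_zero, map_smul, smul_smul]
  have e3 : t / (2 * n) * (t / (2 * n)) * (4 * n ^ 2 / t ^ 2) = 1 := by field_simp; ring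
  rw [e3, one_smul, S.pull_comp]

theorem map_coord {Y X : 𝒱} (f : Y ⟶ X) {m : ℕ} (k : Fin m) :
    powerMap f m ≫ coord X k = coord Y k ≫ f :=
  Limits.Pi.map_π _ _

theorem smash_pull {Y X : 𝒱} (f : Y ⟶ X) (a : S.A X) (m : ℕ) :
    S.smash (S.pull f a) m = S.pull (powerMap f m) (S.smash a m) := by
  unfold Cycles.smash
  rw [map_prod]
  refine Finset.prod_congr rfl fun k _ => ?_
  rw [← S.pull_comp, ← S.pull_comp, map_coord]

include T in
theorem iterated_smash {Y X : 𝒱} {f : Y ⟶ X} (hf : K.IteratedBlowup f) (a : S.A X)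
    (m : ℕ) : S.smash (S.pull f a) m = 0 ↔ S.smash a m = 0 := by
  induction hf with
  | id X => rw [S.pull_id]
  | comp g f hg hf ih =>
    rw [S.pull_comp, smash_pull g, ← ih]
    constructor
    · intro h
      exact T.injective g hg m _ h
    · intro h
      rw [h, map_zero]

include T in
theorem iterated_hom {Y X : 𝒱} {f : Y ⟶ X} (hf : K.IteratedBlowup f) (a : S.A X) :
    S.pull f a ∈ S.hom Y ↔ a ∈ S.hom X := by
  induction hf with
  | id X => rw [S.pull_id]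
  | comp g f hg hf ih =>
    rw [S.pull_comp, ← ih]
    exact ⟨fun h => T.hom_injective g hg _ h, fun h => S.pull_hom g h⟩

end Pool.Agent.Helper13.Sq
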