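import Mathlib
import Pool.Agent.Helper13.Sq.Main

/-!
# Every 1-cycle on a threefold becomes the square of a divisor after blow-ups

The definitions are in `Pool/Agent/Helper81/Smash/Defs.lean` (rational Chow rings, exterior powers)
and `Pool/Agent/Helper13/Sq/Defs.lean` (curves in threefolds and blow-ups).

Proof. Let `H` be very ample on `X` and `z ∈ CH²(X) ⊗ ℚ`. There is a smooth curve `C` of class
`- n² z + (k r)² H²`. For `s` large put `t = (4 s - deg N_C) / (H · C)`; since the Jacobian of `C` is
divisible there are points `p_1, …, p_s` of `C` with `4 ∑ p_j = c_1(N_C) + t H|_C`. Write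
`2 k r / t = u / v < 1`. Blow up a complete intersection curve `B` of type `(v - u, v + u)` disjoint
from `C`; with the exceptional divisor `E_B`, the divisor `L = H - E_B / v` has square
`(u / v)² H²` and restricts to `H|_C`. Blow up the points `p_j` and then `C`, with exceptional
divisors `P_j` and `E`. Then `(L + (2 / t) (E - ∑ P_j))² = L² - (4 / t²) C = (2 n / t)² z`.

The mathematics is due to helper13, helper91 and helper81.
-/

set_option autoImplicit false

open CategoryTheory CategoryTheory.Limits

namespace Pool.Agent.Results.MP_bf8edd_ag.ThreefoldSquares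

open Pool.Agent.Helper81.Smash Pool.Agent.Helper13.Sq

universe u v w

/-- Every 1-cycle `z` on a threefold becomes the square of a divisor `D` on an iterated blow-up, with
the same vanishing exterior powers. So Voevodsky's conjecture for the 1-cycles on threefolds is
equivalent to its case of the squares of divisors on threefolds. -/
theorem result {𝒱 : Type u} [Category.{v} 𝒱] [HasFiniteProducts 𝒱] (S : HomCycles.{u, v, w} 𝒱)
    (K : Threefolds S) (hK : K.Standard) :
    (∀ (X : 𝒱) (z : S.A X), S.dim X = 3 → IsTwo z →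
      ∃ (Y : 𝒱) (f : Y ⟶ X) (D : S.A Y), K.IteratedBlowup f ∧ S.dim Y = 3 ∧ IsDiv D ∧
        square D = pullB f z ∧ (square D ∈ S.hom Y ↔ z ∈ S.hom X) ∧ S.SameSmash (square D) z) ∧
    (VoevodskyThreefolds S ↔ VoevodskySquares S) := by
  have key : ∀ (X : 𝒱) (z : S.A X), S.dim X = 3 → IsTwo z →
      ∃ (Y : 𝒱) (f : Y ⟶ X) (D : S.A Y), K.IteratedBlowup f ∧ S.dim Y = 3 ∧ IsDiv D ∧
        square D = pullB f z ∧ (square D ∈ S.hom Y ↔ z ∈ S.hom X) ∧ S.SameSmash (square D) z := by
    intro X z hX hz
    obtain ⟨Y, f, D, hf, hD, hDD⟩ := exists_square K hK X hX z hz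
    have hDD' : square D = S.pull f z := hDD
    refine ⟨Y, f, D, hf, (iterated_dim K hK hf).trans hX, hD, hDD, ?_, fun m => ?_⟩
    · rw [hDD']; exact iterated_hom K hK hf z
    · rw [hDD']; exact iterated_smash K hK hf z m
  refine ⟨key, fun h X D hX hD hDh => h X (square D) hX (S.mul_mem hD hD) hDh,
    fun h X z hX hz hzh => ?_⟩
  obtain ⟨Y, f, D, hf, hY, hD, hDD, h1, h2⟩ := key X z hX hz
  obtain ⟨m, hm, h3⟩ := h Y D hY hD (h1.mpr hzh)
  exact ⟨m, hm, (h2 m).mp h3⟩

end Pool.Agent.Results.MP_bf8edd_ag.ThreefoldSquares
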